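import Pool.Agent.helper11.RPQ.SpecG

set_option autoImplicit false

open scoped MatrixGroups ContDiff Topology UpperHalfPlane ComplexConjugate
open UpperHalfPlane MeasureTheory Filter Set

namespace Pool.Agent.RPQ

open Pool.Agent.RS
open Pool.Agent.MS (BA BB st pf gk Dk amk)

/-- the finite set of group elements which move a point of a large ball by a bounded amount -/
theorem INJ_fin (Γ : Subgroup SL(2, ℝ)) (hΓ : QU.SurfaceGroup Γ) (K : Set ℍ) (hK : IsCompact K) (D : ℝ) :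
    {γ : Γ | ∃ z ∈ K, ∃ w ∈ K, dist w ((γ : SL(2, ℝ)) • z) ≤ D}.Finite := by
  obtain ⟨R, hR⟩ := hK.isBounded.subset_closedBall (UpperHalfPlane.I)
  have hB : IsCompact (Metric.closedBall (UpperHalfPlane.I) (R + |D|)) := isCompact_closedBall _ _
  refine (hΓ.discrete _ hB).subset ?_
  rintro γ ⟨z, hz, w, hw, h⟩
  have hz1 : dist z UpperHalfPlane.I ≤ R := hR hz
  have hw1 : dist w UpperHalfPlane.I ≤ R := hR hw
  have hD : 0 ≤ |D| := abs_nonneg D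
  refine ⟨z, ?_, ?_⟩
  · rw [Metric.mem_closedBall]; linarith
  · rw [Metric.mem_closedBall]
    have h1 : dist ((γ : SL(2, ℝ)) • z) UpperHalfPlane.I ≤ dist ((γ : SL(2, ℝ)) • z) w + dist w UpperHalfPlane.I :=
      dist_triangle _ _ _
    rw [dist_comm] at h
    have h2 : D ≤ |D| := le_abs_self D
    show dist ((γ : SL(2, ℝ)) • z) UpperHalfPlane.I ≤ R + |D|
    linarith

theorem INJ_pos (K : Set ℍ) (hK : IsCompact K) (g : SL(2, ℝ)) (h : ∀ z : ℍ, g • z ≠ z) :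
    ∃ m : ℝ, 0 < m ∧ ∀ z ∈ K, m ≤ dist (g • z) z := by
  rcases K.eq_empty_or_nonempty with rfl | hne
  · exact ⟨1, one_pos, fun z hz => absurd hz (Set.notMem_empty z)⟩
  · have hc : Continuous (fun z : ℍ => dist (g • z) z) := (continuous_const_smul g).dist continuous_id
    obtain ⟨z₀, hz₀, hmin⟩ := hK.exists_isMinOn hne hc.continuousOn
    exact ⟨dist (g • z₀) z₀, dist_pos.2 (h z₀), fun z hz => hmin hz⟩

theorem INJ_proof : INJ_stmt := by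
  intro Γ hΓ
  obtain ⟨K, hK, hcov⟩ := hΓ.cocompact
  refine ⟨?_, ?_⟩
  · have hfin := INJ_fin Γ hΓ K hK 1
    have hev : ∀ᶠ e in 𝓝[>] (0 : ℝ), ∀ γ ∈ {γ : Γ | ∃ z ∈ K, ∃ w ∈ K, dist w ((γ : SL(2, ℝ)) • z) ≤ 1},
        γ ≠ 1 → ∀ z ∈ K, e ≤ dist ((γ : SL(2, ℝ)) • z) z := by
      rw [Filter.eventually_all_finite hfin]
      intro γ _
      by_cases h1 : γ = 1
      · exact Filter.Eventually.of_forall fun e hne => absurd h1 hne
      · obtain ⟨m, hm, hmK⟩ := INJ_pos K hK (γ : SL(2, ℝ)) (fun z hz => h1 (hΓ.free γ z hz))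
        filter_upwards [Ioc_mem_nhdsGT hm] with e he _ z hz
        exact he.2.trans (hmK z hz)
    obtain ⟨e, he, h01⟩ := (hev.and (Ioc_mem_nhdsGT (show (0 : ℝ) < 1 from one_pos))).exists
    refine ⟨e, h01.1, h01.2, fun γ z hd => ?_⟩
    obtain ⟨γ₁, hγ₁⟩ := hcov z
    have hγ₁' : (γ₁ : SL(2, ℝ)) • z ∈ K := hγ₁
    have hconj : ((γ₁ * γ * γ₁⁻¹ : Γ) : SL(2, ℝ)) • ((γ₁ : SL(2, ℝ)) • z) = (γ₁ : SL(2, ℝ)) • ((γ : SL(2, ℝ)) • z) := by
      rw [smul_smul, smul_smul]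
      congr 1
      simp
    have hdist : dist (((γ₁ * γ * γ₁⁻¹ : Γ) : SL(2, ℝ)) • ((γ₁ : SL(2, ℝ)) • z)) ((γ₁ : SL(2, ℝ)) • z) < e := by
      rw [hconj, dist_smul]
      exact hd
    by_contra hne
    have hne' : γ₁ * γ * γ₁⁻¹ ≠ 1 := by
      intro h
      apply hne
      have h2 : γ₁ * γ = γ₁ := by
        have := mul_inv_eq_one.1 h
        exact this
      exact mul_eq_left.1 h2
    have hmem : (γ₁ * γ * γ₁⁻¹) ∈ {γ : Γ | ∃ z ∈ K, ∃ w ∈ K, dist w ((γ : SL(2, ℝ)) • z) ≤ 1} :=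
      ⟨_, hγ₁', _, hγ₁', by rw [dist_comm]; exact (hdist.le.trans h01.2)⟩
    have := he _ hmem hne' _ hγ₁'
    linarith
  · intro D
    have hfin := INJ_fin Γ hΓ K hK D
    refine ⟨{γ : Γ | ∃ z ∈ K, ∃ w ∈ K, dist w ((γ : SL(2, ℝ)) • z) ≤ D}.ncard, fun z w => ?_⟩
    obtain ⟨γ₁, hγ₁⟩ := hcov z
    obtain ⟨γ₂, hγ₂⟩ := hcov w
    have hγ₁' : (γ₁ : SL(2, ℝ)) • z ∈ K := hγ₁
    have hγ₂' : (γ₂ : SL(2, ℝ)) • w ∈ K := hγ₂
    have hinj : Function.Injective (fun γ : Γ => γ₁ * γ * γ₂⁻¹) := by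
      intro a b hab
      have h1 : γ₁ * a * γ₂⁻¹ = γ₁ * b * γ₂⁻¹ := hab
      exact mul_left_cancel (mul_right_cancel h1)
    have hmaps : ∀ γ ∈ {γ : Γ | dist z ((γ : SL(2, ℝ)) • w) ≤ D}, γ₁ * γ * γ₂⁻¹ ∈
        {γ : Γ | ∃ z ∈ K, ∃ w ∈ K, dist w ((γ : SL(2, ℝ)) • z) ≤ D} := by
      intro γ hγ
      refine ⟨_, hγ₂', _, hγ₁', ?_⟩
      have hconj : ((γ₁ * γ * γ₂⁻¹ : Γ) : SL(2, ℝ)) • ((γ₂ : SL(2, ℝ)) • w) = (γ₁ : SL(2, ℝ)) • ((γ : SL(2, ℝ)) • w) := by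
        rw [smul_smul, smul_smul]
        congr 1
        simp
      rw [hconj, dist_smul]
      exact hγ
    refine ⟨?_, ?_⟩
    · exact (hfin.preimage hinj.injOn).subset hmaps
    · exact Set.ncard_le_ncard_of_injOn (fun γ : Γ => γ₁ * γ * γ₂⁻¹) hmaps hinj.injOn hfin

end Pool.Agent.RPQ
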