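import Pool.Agent.helper11.RPQ.SpecT
import Pool.Agent.helper62.QU.All

set_option autoImplicit false

open scoped MatrixGroups ContDiff Topology UpperHalfPlane ComplexConjugate
open UpperHalfPlane MeasureTheory Filter Set

namespace Pool.Agent.RPQ

open Pool.Agent.RS
open Pool.Agent.MS (BA BB st pf gk Dk amk)

theorem SPM_int {Γ : Subgroup SL(2, ℝ)} {F : Set ℍ} (hF : QU.NiceDom Γ F) {E : Type} [NormedAddCommGroup E]
    {h : ℍ → E} (hh : Continuous h) : IntegrableOn h F := by
  obtain ⟨K, hK, hFK⟩ := hF.rel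
  exact (hh.continuousOn.integrableOn_compact hK).mono_set hFK

/-- symmetry of the convolution, complex functions -/
theorem SPM_sym {Γ : Subgroup SL(2, ℝ)} {F : Set ℍ} (hΓ : QU.SurfaceGroup Γ) (hF : QU.NiceDom Γ F) {κ : ℝ → ℝ}
    (hκ : QU.RK κ) {f g : ℍ → ℂ} (hf : InvC Γ f) (hg : InvC Γ g) :
    ∫ z in F, QU.conv κ f z * conj (g z) = ∫ z in F, f z * conj (QU.conv κ g z) := by
  obtain ⟨_, _, tsym, tinv, tcont, tdist, _, _⟩ := QU.A_TTT
  have hκc : Continuous κ := hκ.smooth.continuous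
  obtain ⟨s, hs⟩ := hκ.supp
  have key := QU.A_SYM Γ F ℂ (fun z w => ((κ (QU.tt z w) : ℝ) : ℂ) * f w * conj (g z)) hΓ hF
    (by
      have e : (Function.uncurry fun z w : ℍ => ((κ (QU.tt z w) : ℝ) : ℂ) * f w * conj (g z)) =
          fun p : ℍ × ℍ => ((κ (QU.tt p.1 p.2) : ℝ) : ℂ) * f p.2 * conj (g p.1) := by
        funext p
        rfl
      rw [e]
      exact ((Complex.continuous_ofReal.comp (hκc.comp tcont)).mul (hf.1.comp continuous_snd)).mul
        (Complex.continuous_conj.comp (hg.1.comp continuous_fst)))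
    (by
      intro γ z w
      have e1 : QU.tt (γ • z) (γ • w) = QU.tt z w := tinv (γ : SL(2, ℝ)) z w
      show ((κ (QU.tt (γ • z) (γ • w)) : ℝ) : ℂ) * f (γ • w) * conj (g (γ • z)) =
        ((κ (QU.tt z w) : ℝ) : ℂ) * f w * conj (g z)
      rw [e1, hf.2, hg.2])
    (by
      obtain ⟨R, _, hR⟩ := tdist s
      refine ⟨R, fun z w hne => hR z w ?_⟩
      by_contra hcon
      push Not at hcon
      apply hne
      show ((κ (QU.tt z w) : ℝ) : ℂ) * f w * conj (g z) = 0
      rw [hs _ hcon.le, Complex.ofReal_zero, zero_mul, zero_mul])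
  have hL : (∫ z in F, QU.conv κ f z * conj (g z)) =
      ∫ z in F, ∫ w : ℍ, ((κ (QU.tt z w) : ℝ) : ℂ) * f w * conj (g z) := by
    congr 1
    funext z
    unfold QU.conv
    rw [← integral_mul_const]
    rfl
  have hR : (∫ z in F, f z * conj (QU.conv κ g z)) =
      ∫ z in F, ∫ w : ℍ, ((κ (QU.tt w z) : ℝ) : ℂ) * f z * conj (g w) := by
    congr 1
    funext z
    unfold QU.conv
    rw [← integral_conj, ← integral_const_mul]
    congr 1
    funext w
    rw [tsym w z]
    show f z * conj (((κ (QU.tt z w) : ℝ) : ℂ) * g w) = _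
    rw [map_mul, Complex.conj_ofReal]
    ring
  rw [hL, hR]
  exact key

/-- Green's formula on the surface -/
theorem SPM_green {Γ : Subgroup SL(2, ℝ)} {F : Set ℍ} (hΓ : QU.SurfaceGroup Γ) (hF : QU.NiceDom Γ F)
    {φ v : ℍ → ℂ} (hφ : QU.CD 2 φ) (hv : QU.CD 2 v) (hφi : InvC Γ φ) (hvi : InvC Γ v)
    (hlφ : Continuous (QU.lap φ)) (hlv : Continuous (QU.lap v)) :
    ∫ z in F, QU.lap φ z * conj (v z) = ∫ z in F, φ z * conj (QU.lap v z) := by
  obtain ⟨fam, hfam⟩ := QU.A_KFM
  obtain ⟨K, hK, hFK⟩ := hF.rel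
  have happ := (QU.A_APX fam hfam).1 ℂ
  have hcc : ∀ (κ : ℝ → ℝ) (f : ℍ → ℂ), QU.RK κ → Continuous f → Continuous (QU.conv κ f) := (QU.A_CVB ℂ).2.2.2.2.2.1
  obtain ⟨M, hM⟩ : ∃ M : ℝ, M = (∫ z in F, ‖v z‖) + ∫ z in F, ‖φ z‖ := ⟨_, rfl⟩
  have hM0 : 0 ≤ M := by
    rw [hM]
    exact add_nonneg (integral_nonneg fun _ => norm_nonneg _) (integral_nonneg fun _ => norm_nonneg _)
  have key : ∀ ε : ℝ, 0 < ε →
      ‖(∫ z in F, QU.lap φ z * conj (v z)) - ∫ z in F, φ z * conj (QU.lap v z)‖ ≤ ε * M := by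
    intro ε hε
    obtain ⟨η₁, hη₁, h1⟩ := happ (QU.lap φ) hlφ K hK ε hε
    obtain ⟨η₂, hη₂, h2⟩ := happ (QU.lap v) hlv K hK ε hε
    obtain ⟨η, hη⟩ : ∃ η : ℝ, η = min η₁ η₂ := ⟨_, rfl⟩
    have hη0 : 0 < η := by rw [hη]; exact lt_min hη₁ hη₂
    have hκ : QU.RK (fam η) := hfam.rk η hη0
    have hLκ : QU.RK (QU.LL (fam η)) := QU.A_LAK.2.2.2.1 _ hκ
    have hc1 := hcc (fam η) (QU.lap φ) hκ hlφ
    have hc2 := hcc (fam η) (QU.lap v) hκ hlv
    have heq : ∫ z in F, QU.conv (fam η) (QU.lap φ) z * conj (v z) =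
        ∫ z in F, φ z * conj (QU.conv (fam η) (QU.lap v) z) := by
      have e1 : QU.conv (fam η) (QU.lap φ) = QU.conv (QU.LL (fam η)) φ :=
        funext fun z => QU.A_COM ℂ (fam η) φ hκ hφ z
      have e2 : QU.conv (fam η) (QU.lap v) = QU.conv (QU.LL (fam η)) v :=
        funext fun z => QU.A_COM ℂ (fam η) v hκ hv z
      rw [e1, e2]
      exact SPM_sym hΓ hF hLκ hφi hvi
    have j1 : IntegrableOn (fun z => QU.lap φ z * conj (v z)) F :=
      SPM_int hF (hlφ.mul (Complex.continuous_conj.comp hvi.1))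
    have j2 : IntegrableOn (fun z => QU.conv (fam η) (QU.lap φ) z * conj (v z)) F :=
      SPM_int hF (hc1.mul (Complex.continuous_conj.comp hvi.1))
    have j3 : IntegrableOn (fun z => φ z * conj (QU.conv (fam η) (QU.lap v) z)) F :=
      SPM_int hF (hφi.1.mul (Complex.continuous_conj.comp hc2))
    have j4 : IntegrableOn (fun z => φ z * conj (QU.lap v z)) F :=
      SPM_int hF (hφi.1.mul (Complex.continuous_conj.comp hlv))
    have hd1 : ‖(∫ z in F, QU.lap φ z * conj (v z)) - ∫ z in F, QU.conv (fam η) (QU.lap φ) z * conj (v z)‖ ≤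
        ε * ∫ z in F, ‖v z‖ := by
      rw [← integral_sub j1 j2, ← integral_const_mul]
      refine (norm_integral_le_integral_norm _).trans ?_
      refine setIntegral_mono_on (SPM_int hF ?_) (SPM_int hF (continuous_const.mul hvi.1.norm)) hF.meas ?_
      · exact ((hlφ.mul (Complex.continuous_conj.comp hvi.1)).sub (hc1.mul (Complex.continuous_conj.comp hvi.1))).norm
      · intro z hz
        have h3 := h1 η hη0 (by rw [hη]; exact min_le_left _ _) z (hFK hz)
        rw [← sub_mul, norm_mul, Complex.norm_conj, ← norm_neg (QU.lap φ z - _), neg_sub]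
        exact mul_le_mul_of_nonneg_right h3 (norm_nonneg _)
    have hd2 : ‖(∫ z in F, φ z * conj (QU.conv (fam η) (QU.lap v) z)) - ∫ z in F, φ z * conj (QU.lap v z)‖ ≤
        ε * ∫ z in F, ‖φ z‖ := by
      rw [← integral_sub j3 j4, ← integral_const_mul]
      refine (norm_integral_le_integral_norm _).trans ?_
      refine setIntegral_mono_on (SPM_int hF ?_) (SPM_int hF (continuous_const.mul hφi.1.norm)) hF.meas ?_
      · exact ((hφi.1.mul (Complex.continuous_conj.comp hc2)).sub (hφi.1.mul (Complex.continuous_conj.comp hlv))).norm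
      · intro z hz
        have h3 := h2 η hη0 (by rw [hη]; exact min_le_right _ _) z (hFK hz)
        rw [← mul_sub, norm_mul, ← map_sub, Complex.norm_conj, mul_comm]
        exact mul_le_mul_of_nonneg_right h3 (norm_nonneg _)
    rw [heq] at hd1
    have h4 := norm_add_le ((∫ z in F, QU.lap φ z * conj (v z)) - ∫ z in F, φ z * conj (QU.conv (fam η) (QU.lap v) z))
      ((∫ z in F, φ z * conj (QU.conv (fam η) (QU.lap v) z)) - ∫ z in F, φ z * conj (QU.lap v z))
    rw [sub_add_sub_cancel] at h4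
    rw [hM]
    linarith
  have hz : ‖(∫ z in F, QU.lap φ z * conj (v z)) - ∫ z in F, φ z * conj (QU.lap v z)‖ ≤ 0 := by
    refine le_of_forall_pos_le_add fun e he => ?_
    have h5 := key (e / (M + 1)) (by positivity)
    have h6 : e / (M + 1) * M ≤ e := by
      rw [div_mul_eq_mul_div, div_le_iff₀ (by linarith)]
      nlinarith
    linarith
  exact sub_eq_zero.1 (norm_le_zero_iff.1 hz)

/-- Pythagoras -/
theorem SPM_pyth {Γ : Subgroup SL(2, ℝ)} {F : Set ℍ} (hF : QU.NiceDom Γ F) {n : ℕ} {u : ℍ → ℂ} (hu : Continuous u)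
    {v : Fin n → ℍ → ℂ} (hv : ∀ i, Continuous (v i))
    (ho : ∀ i j, ∫ z in F, v i z * conj (v j z) = if i = j then 1 else 0) (a : Fin n → ℂ)
    (ha : ∀ i, ∫ z in F, u z * conj (v i z) = a i) :
    nn F u = nn F (fun z => u z - ∑ i, a i * v i z) + ∑ i, ‖a i‖ ^ 2 := by
  have hcj : ∀ {f : ℍ → ℂ}, Continuous f → Continuous fun z => conj (f z) := fun hf => Complex.continuous_conj.comp hf
  have hsq : ∀ w : ℂ, ((‖w‖ ^ 2 : ℝ) : ℂ) = w * conj w := by
    intro w
    rw [Complex.mul_conj, Complex.normSq_eq_norm_sq]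
  have hnn : ∀ f : ℍ → ℂ, ((nn F f : ℝ) : ℂ) = ∫ z in F, f z * conj (f z) := by
    intro f
    unfold nn
    rw [← integral_complex_ofReal]
    exact integral_congr_ae (Filter.Eventually.of_forall fun z => hsq (f z))
  have ha' : ∀ i, ∫ z in F, conj (u z * conj (v i z)) = conj (a i) := by
    intro i
    rw [integral_conj, ha i]
  have hpt : ∀ z, (u z - ∑ i, a i * v i z) * conj (u z - ∑ i, a i * v i z) =
      u z * conj (u z) - (∑ i, conj (a i) * (u z * conj (v i z))) - (∑ i, a i * conj (u z * conj (v i z))) +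
        ∑ i, ∑ j, a i * conj (a j) * (v i z * conj (v j z)) := by
    intro z
    have e1 : (∑ i, conj (a i) * (u z * conj (v i z))) = u z * conj (∑ i, a i * v i z) := by
      rw [map_sum, Finset.mul_sum]
      refine Finset.sum_congr rfl fun i _ => ?_
      rw [map_mul]; ring
    have e2 : (∑ i, a i * conj (u z * conj (v i z))) = (∑ i, a i * v i z) * conj (u z) := by
      rw [Finset.sum_mul]
      refine Finset.sum_congr rfl fun i _ => ?_
      rw [map_mul, Complex.conj_conj]; ring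
    have e3 : (∑ i, ∑ j, a i * conj (a j) * (v i z * conj (v j z))) = (∑ i, a i * v i z) * conj (∑ i, a i * v i z) := by
      rw [map_sum, Finset.sum_mul_sum]
      refine Finset.sum_congr rfl fun i _ => Finset.sum_congr rfl fun j _ => ?_
      rw [map_mul]; ring
    rw [e1, e2, e3, map_sub]
    ring
  have i1 : IntegrableOn (fun z => u z * conj (u z)) F := SPM_int hF (hu.mul (hcj hu))
  have i2 : ∀ i, IntegrableOn (fun z => conj (a i) * (u z * conj (v i z))) F := fun i =>
    SPM_int hF (continuous_const.mul (hu.mul (hcj (hv i))))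
  have i3 : ∀ i, IntegrableOn (fun z => a i * conj (u z * conj (v i z))) F := fun i =>
    SPM_int hF (continuous_const.mul (hcj (hu.mul (hcj (hv i)))))
  have i4 : ∀ i j, IntegrableOn (fun z => a i * conj (a j) * (v i z * conj (v j z))) F := fun i j =>
    SPM_int hF (continuous_const.mul ((hv i).mul (hcj (hv j))))
  have i2s : IntegrableOn (fun z => ∑ i, conj (a i) * (u z * conj (v i z))) F :=
    integrable_finsetSum _ fun i _ => i2 i
  have i3s : IntegrableOn (fun z => ∑ i, a i * conj (u z * conj (v i z))) F :=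
    integrable_finsetSum _ fun i _ => i3 i
  have i4s : IntegrableOn (fun z => ∑ i, ∑ j, a i * conj (a j) * (v i z * conj (v j z))) F :=
    integrable_finsetSum _ fun i _ => integrable_finsetSum _ fun j _ => i4 i j
  have s2 : ∫ z in F, (∑ i, conj (a i) * (u z * conj (v i z))) = ∑ i, conj (a i) * a i := by
    rw [integral_finsetSum _ fun i _ => i2 i]
    refine Finset.sum_congr rfl fun i _ => ?_
    rw [integral_const_mul, ha i]
  have s3 : ∫ z in F, (∑ i, a i * conj (u z * conj (v i z))) = ∑ i, conj (a i) * a i := by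
    rw [integral_finsetSum _ fun i _ => i3 i]
    refine Finset.sum_congr rfl fun i _ => ?_
    rw [integral_const_mul, ha' i, mul_comm]
  have s4 : ∫ z in F, (∑ i, ∑ j, a i * conj (a j) * (v i z * conj (v j z))) = ∑ i, conj (a i) * a i := by
    rw [integral_finsetSum _ fun i _ => integrable_finsetSum _ fun j _ => i4 i j]
    refine Finset.sum_congr rfl fun i _ => ?_
    rw [integral_finsetSum _ fun j _ => i4 i j]
    rw [Finset.sum_eq_single i]
    · rw [integral_const_mul, ho i i, if_pos rfl, mul_one, mul_comm]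
    · intro j _ hj
      rw [integral_const_mul, ho i j, if_neg (Ne.symm hj), mul_zero]
    · intro h; exact absurd (Finset.mem_univ i) h
  have hmain : ((nn F (fun z => u z - ∑ i, a i * v i z) : ℝ) : ℂ) = ((nn F u : ℝ) : ℂ) - ∑ i, conj (a i) * a i := by
    rw [hnn, hnn]
    have h1 : (fun z => (u z - ∑ i, a i * v i z) * conj (u z - ∑ i, a i * v i z)) = fun z =>
        u z * conj (u z) - (∑ i, conj (a i) * (u z * conj (v i z))) - (∑ i, a i * conj (u z * conj (v i z))) +
        ∑ i, ∑ j, a i * conj (a j) * (v i z * conj (v j z)) := funext hpt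
    rw [h1]
    have k1 : IntegrableOn (fun z => u z * conj (u z) - ∑ i, conj (a i) * (u z * conj (v i z))) F := i1.sub i2s
    have k2 : IntegrableOn (fun z => u z * conj (u z) - (∑ i, conj (a i) * (u z * conj (v i z))) -
        ∑ i, a i * conj (u z * conj (v i z))) F := k1.sub i3s
    rw [integral_add k2 i4s, integral_sub k1 i3s, integral_sub i1 i2s, s2, s3, s4]
    ring
  have hsum : (∑ i, conj (a i) * a i) = ((∑ i, ‖a i‖ ^ 2 : ℝ) : ℂ) := by
    rw [Complex.ofReal_sum]
    refine Finset.sum_congr rfl fun i _ => ?_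
    rw [hsq, mul_comm]
  rw [hsum, ← Complex.ofReal_sub] at hmain
  have := Complex.ofReal_injective hmain
  linarith

theorem SPM_proof : SPM_stmt := by
  intro Γ F R φ ψ n v lam hΓ hF hφ2 hφ hψ hlap hv ho
  have hc : ∀ i, Continuous (v i) := fun i =>
    (QU.CA1_cont (v i)).1 (ContDiffOn.of_le (hv i).1 (by norm_num))
  have hvi : ∀ i, InvC Γ (v i) := fun i => ⟨hc i, (hv i).2.1⟩
  have hcj : ∀ {f : ℍ → ℂ}, Continuous f → Continuous fun z => conj (f z) := fun hf => Complex.continuous_conj.comp hf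
  have hlφ : QU.lap φ = fun z => ((1 / 4 + R ^ 2 : ℝ) : ℂ) * φ z + ψ z := funext hlap
  have hlv : ∀ i, QU.lap (v i) = fun z => ((lam i : ℝ) : ℂ) * v i z := fun i => funext (hv i).2.2
  have hlφc : Continuous (QU.lap φ) := by
    rw [hlφ]
    exact (continuous_const.mul hφ.1).add hψ.1
  have hlvc : ∀ i, Continuous (QU.lap (v i)) := by
    intro i
    rw [hlv i]
    exact continuous_const.mul (hc i)
  have hb : ∀ i, ∫ z in F, ψ z * conj (v i z) =
      ((lam i - 1 / 4 - R ^ 2 : ℝ) : ℂ) * ∫ z in F, φ z * conj (v i z) := by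
    intro i
    have hg := SPM_green hΓ hF hφ2 (hv i).1 hφ (hvi i) hlφc (hlvc i)
    have j1 : IntegrableOn (fun z => ((1 / 4 + R ^ 2 : ℝ) : ℂ) * (φ z * conj (v i z))) F :=
      SPM_int hF (continuous_const.mul (hφ.1.mul (hcj (hc i))))
    have j2 : IntegrableOn (fun z => ψ z * conj (v i z)) F := SPM_int hF (hψ.1.mul (hcj (hc i)))
    have e1 : ∫ z in F, QU.lap φ z * conj (v i z) =
        ((1 / 4 + R ^ 2 : ℝ) : ℂ) * (∫ z in F, φ z * conj (v i z)) + ∫ z in F, ψ z * conj (v i z) := by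
      rw [← integral_const_mul, ← integral_add j1 j2]
      refine integral_congr_ae (Filter.Eventually.of_forall fun z => ?_)
      show QU.lap φ z * conj (v i z) = _
      rw [hlap z]
      ring
    have e2 : ∫ z in F, φ z * conj (QU.lap (v i) z) = ((lam i : ℝ) : ℂ) * ∫ z in F, φ z * conj (v i z) := by
      rw [← integral_const_mul]
      refine integral_congr_ae (Filter.Eventually.of_forall fun z => ?_)
      show φ z * conj (QU.lap (v i) z) = _
      rw [(hv i).2.2 z, map_mul, Complex.conj_ofReal]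
      ring
    rw [e1, e2] at hg
    have h3 := eq_sub_of_add_eq' hg
    rw [h3]
    push_cast
    ring
  have h3 := SPM_pyth hF hφ.1 hc ho (fun i => ∫ z in F, φ z * conj (v i z)) (fun i => rfl)
  have hnn : ∀ f : ℍ → ℂ, 0 ≤ nn F f := fun f => integral_nonneg fun _ => by positivity
  refine ⟨?_, ?_, h3⟩
  · have h4 := SPM_pyth hF hψ.1 hc ho (fun i => ∫ z in F, ψ z * conj (v i z)) (fun i => rfl)
    have h5 := hnn (fun z => ψ z - ∑ i, (∫ w in F, ψ w * conj (v i w)) * v i z)
    have h6 : ∑ i, (lam i - 1 / 4 - R ^ 2) ^ 2 * ‖∫ w in F, φ w * conj (v i w)‖ ^ 2 =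
        ∑ i, ‖∫ w in F, ψ w * conj (v i w)‖ ^ 2 := by
      refine Finset.sum_congr rfl fun i _ => ?_
      rw [hb i, norm_mul, mul_pow, Complex.norm_real, Real.norm_eq_abs, sq_abs]
    rw [h6]
    linarith
  · have h5 := hnn (fun z => φ z - ∑ i, (∫ w in F, φ w * conj (v i w)) * v i z)
    linarith

end Pool.Agent.RPQ
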