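import Pool.Agent.helper11.RPQ.SpecI
import Pool.Agent.helper75.RPQ.EHS

/-!
# MP_07c750, project RPI, row ESW: the mean of the square of the Hilbert-Schmidt norm of a word, with a
deterministic phase
-/

set_option autoImplicit false

open scoped MatrixGroups ContDiff Topology UpperHalfPlane ComplexConjugate ENNReal
open UpperHalfPlane MeasureTheory Filter Set

namespace Pool.Agent.RPQ

open Pool.Agent.RS
open Pool.Agent.MS (BA BB st pf gk Dk amk)

theorem ESW_proof (hSNC : SNC_stmt) (hEHW : EHW_stmt) (hPIW : PIW_stmt) (hUNL : UNL_stmt) (hWDE : WDE_stmt) : ESW_stmt := by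
  intro Γ F J nc K χ V s κ t u m A l Mx S hΓ hF hχ hV hu huB huD hA hAΓ hl hm hum hS hMx hSum hK
  have hE := hEHW Γ F J nc K χ V s κ t u m A l Mx S hΓ hF hχ hV hu huB huD hA hAΓ hl hm hum hS hMx hSum hK
  obtain ⟨-, hcount, -, -, hmeas⟩ := hPIW Γ F J χ V s κ t u A l hΓ hF hχ hV hu huB huD hA hAΓ hl
  obtain ⟨hwm, -⟩ := (hWDE m t hm).2 A l hA hl
  have hPJ : IsProbabilityMeasure (PJ J) := (hSNC J).1
  have hs : SigmaFinite mG := (GMG GLC).2.2.1
  have hU := (hUNL Γ F hΓ hF).1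
  have hw1 : ∀ g : SL(2, ℝ), Measurable (wdE m t A l g) := fun g =>
    hwm.comp (g := Function.uncurry (wdE m t A l)) (f := fun h => (g, h)) measurable_prodMk_left
  have hw2 : Measurable fun g : SL(2, ℝ) => ∫⁻ h, wdE m t A l g h ∂mG :=
    Measurable.lintegral_prod_right' (f := Function.uncurry (wdE m t A l)) hwm
  have hsum : ∀ g : SL(2, ℝ), Measurable fun h : SL(2, ℝ) => ∑' γ : Γ, wdE m t A l g ((γ : SL(2, ℝ)) * h) := by
    intro g
    refine Measurable.tsum fun γ => (hw1 g).comp ?_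
    exact (continuous_const.mul continuous_id).measurable
  generalize hf0 : (fun (ξ : Fin J → ℝ) (g h : SL(2, ℝ)) => ‖perK Γ (wdK (fun z => V z + s * VV χ ξ z) κ t u A l) g h‖ₑ ^ 2) = f
  have hf1 : ∀ ξ g h, ‖perK Γ (wdK (fun z => V z + s * VV χ ξ z) κ t u A l) g h‖ₑ ^ 2 = f ξ g h := by
    intro ξ g h
    rw [← hf0]
  have hfm : Measurable fun p : (Fin J → ℝ) × (SL(2, ℝ) × SL(2, ℝ)) => f p.1 p.2.1 p.2.2 := by
    rw [← hf0]
    exact hmeas.enorm.pow_const 2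
  simp only [hf1] at hE ⊢
  rw [EHS_swap (PJ J) (mG.restrict (dG F)) f hfm]
  generalize wdE m t A l = W at *
  calc ∫⁻ g in dG F, ∫⁻ h in dG F, ∫⁻ ξ, f ξ g h ∂PJ J ∂mG ∂mG
      ≤ ∫⁻ g in dG F, ∫⁻ h in dG F, (K * Mx + ENNReal.ofReal ((9 / 10) ^ nc) * S) *
          ∑' γ : Γ, W g ((γ : SL(2, ℝ)) * h) ∂mG ∂mG :=
        lintegral_mono fun g => lintegral_mono fun h => hE g h
    _ = ∫⁻ g in dG F, (K * Mx + ENNReal.ofReal ((9 / 10) ^ nc) * S) * ∫⁻ h, W g h ∂mG ∂mG := by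
        refine lintegral_congr fun g => ?_
        rw [lintegral_const_mul _ (hsum g), hU _ (hw1 g)]
    _ = (K * Mx + ENNReal.ofReal ((9 / 10) ^ nc) * S) * ∫⁻ g in dG F, ∫⁻ h, W g h ∂mG ∂mG := by
        rw [lintegral_const_mul _ hw2]

end Pool.Agent.RPQ
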